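import Pool.Agent.H24.GS.Stm

/-! Part DBA of crew GS: the stereographic coordinate at a point where the first order equation
holds (adapted from the library lemma `dbar_psi`). -/

set_option autoImplicit false

noncomputable section

namespace Pool.Agent.H32.GS

open Complex Set Filter Topology MeasureTheory Metric
open Pool.Agent.H172R3.SM Pool.Agent.H172R3.SM.Config Pool.Agent.H24.GS
open scoped ContDiff Matrix

variable {c : Config}

theorem smc (h : ContDiff ℝ ∞ c.phi) (i : Fin 3) : ContDiff ℝ ∞ (fun z => c.phi z i) :=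
  contDiff_pi.1 h i

theorem fdc (h : ContDiff ℝ ∞ c.phi) (z v : ℂ) (i : Fin 3) :
    fderiv ℝ c.phi z v i = fderiv ℝ (fun z => c.phi z i) z v := by
  have h1 := (h.differentiable (by simp) z).hasFDerivAt
  have h2 := (hasFDerivAt_pi'.1 h1) i
  rw [h2.fderiv]
  rfl

theorem d10 (h : ContDiff ℝ ∞ c.phi) (z : ℂ) :
    c.D1 z 0 = dx (fun z => c.phi z 0) z - c.A1 z * c.phi z 1 := by
  unfold Config.D1 dx
  rw [Pi.add_apply, fdc h]
  simp [nn, crossProduct]
  ring

theorem d11 (h : ContDiff ℝ ∞ c.phi) (z : ℂ) :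
    c.D1 z 1 = dx (fun z => c.phi z 1) z + c.A1 z * c.phi z 0 := by
  unfold Config.D1 dx
  rw [Pi.add_apply, fdc h]
  simp [nn, crossProduct]

theorem d12 (h : ContDiff ℝ ∞ c.phi) (z : ℂ) :
    c.D1 z 2 = dx (fun z => c.phi z 2) z := by
  unfold Config.D1 dx
  rw [Pi.add_apply, fdc h]
  simp [nn, crossProduct]

theorem d20 (h : ContDiff ℝ ∞ c.phi) (z : ℂ) :
    c.D2 z 0 = dy (fun z => c.phi z 0) z - c.A2 z * c.phi z 1 := by
  unfold Config.D2 dy
  rw [Pi.add_apply, fdc h]
  simp [nn, crossProduct]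
  ring

theorem d21 (h : ContDiff ℝ ∞ c.phi) (z : ℂ) :
    c.D2 z 1 = dy (fun z => c.phi z 1) z + c.A2 z * c.phi z 0 := by
  unfold Config.D2 dy
  rw [Pi.add_apply, fdc h]
  simp [nn, crossProduct]

theorem d22 (h : ContDiff ℝ ∞ c.phi) (z : ℂ) :
    c.D2 z 2 = dy (fun z => c.phi z 2) z := by
  unfold Config.D2 dy
  rw [Pi.add_apply, fdc h]
  simp [nn, crossProduct]

theorem sph (hs : ∀ z, c.phi z ⬝ᵥ c.phi z = 1) (z : ℂ) :
    c.phi z 0 ^ 2 + c.phi z 1 ^ 2 + c.phi z 2 ^ 2 = 1 := by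
  have := hs z
  simp only [dotProduct, Fin.sum_univ_three] at this
  linarith

theorem tangy (h : ContDiff ℝ ∞ c.phi) (hs : ∀ z, c.phi z ⬝ᵥ c.phi z = 1) (z : ℂ) :
    c.phi z 0 * c.D2 z 0 + c.phi z 1 * c.D2 z 1 + c.phi z 2 * c.D2 z 2 = 0 := by
  rw [d20 h, d21 h, d22 h]
  have h0 := ((smc h 0).differentiable (by simp) z).hasFDerivAt
  have h1 := ((smc h 1).differentiable (by simp) z).hasFDerivAt
  have h2 := ((smc h 2).differentiable (by simp) z).hasFDerivAt
  have h3 := ((h0.mul h0).add (h1.mul h1)).add (h2.mul h2)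
  have h4 : (fun z => c.phi z 0 * c.phi z 0 + c.phi z 1 * c.phi z 1 + c.phi z 2 * c.phi z 2) =
      fun _ => (1 : ℝ) := by
    funext z
    have := sph hs z
    linarith
  have h5 : HasFDerivAt (fun z => c.phi z 0 * c.phi z 0 + c.phi z 1 * c.phi z 1 +
      c.phi z 2 * c.phi z 2) _ z := h3
  rw [h4] at h5
  have h6 := h5.unique (hasFDerivAt_const (1 : ℝ) z)
  have h7 := congrArg (fun L : ℂ →L[ℝ] ℝ => L I) h6
  simp at h7
  unfold dy
  linarith

theorem t_DBA : S_DBA := by
  intro c z h hs hsd hz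
  have e := hsd.1
  have s0 : c.D1 z 0 = -(c.phi z 1 * c.D2 z 2 - c.phi z 2 * c.D2 z 1) := by
    have := congrFun e 0
    simpa [crossProduct] using this
  have s1 : c.D1 z 1 = -(c.phi z 2 * c.D2 z 0 - c.phi z 0 * c.D2 z 2) := by
    have := congrFun e 1
    simpa [crossProduct] using this
  have s2 : c.D1 z 2 = -(c.phi z 0 * c.D2 z 1 - c.phi z 1 * c.D2 z 0) := by
    have := congrFun e 2
    simpa [crossProduct] using this
  have f0 := (smc h 0).differentiable (by simp) z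
  have f1 := (smc h 1).differentiable (by simp) z
  have f2 := (smc h 2).differentiable (by simp) z
  have dw : DifferentiableAt ℝ c.w z :=
    (contDiff_mk (smc h 0) (smc h 1)).differentiable (by simp) z
  have h1 : dbar c.psi z = _ := dbar_div (W := c.w) (ρ := fun z => 1 + c.phi z 2) dw
    (f2.const_add 1) hz
  have h2 : dbar c.w z = _ := dbar_mk f0 f1
  have e1 : dx (fun z => 1 + c.phi z 2) z = dx (fun z => c.phi z 2) z := by
    unfold dx; rw [fderiv_const_add]
  have e2 : dy (fun z => 1 + c.phi z 2) z = dy (fun z => c.phi z 2) z := by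
    unfold dy; rw [fderiv_const_add]
  rw [h1, h2, e1, e2]
  have st := tangy h hs z
  have sp := sph hs z
  rw [d20 h, d21 h, d22 h] at st
  rw [d10 h, d21 h, d22 h] at s0
  rw [d11 h, d20 h, d22 h] at s1
  rw [d12 h, d20 h, d21 h] at s2
  have hzc : ((1 + c.phi z 2 : ℝ) : ℂ) ≠ 0 := by exact_mod_cast hz
  rw [div_eq_iff (pow_ne_zero 2 hzc)]
  have e3 : c.al z * c.psi z * ((1 + c.phi z 2 : ℝ) : ℂ) ^ 2 =
      c.al z * c.w z * ((1 + c.phi z 2 : ℝ) : ℂ) := by
    unfold psi
    field_simp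
  rw [e3]
  unfold al w
  apply Complex.ext
  · simp
    linear_combination (1 + c.phi z 2) * s0 - c.phi z 0 * s2 - c.phi z 1 * st +
      (dy (fun z => c.phi z 1) z + c.A2 z * c.phi z 0) * sp
  · simp
    linear_combination (1 + c.phi z 2) * s1 - c.phi z 1 * s2 + c.phi z 0 * st -
      (dy (fun z => c.phi z 0) z - c.A2 z * c.phi z 1) * sp

end Pool.Agent.H32.GS
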