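import Pool.Agent.H24.GS.Stm

/-! Part VIR of crew GS: the trace of a divergence free integrable symmetric tensor has
integral zero. -/

set_option autoImplicit false

noncomputable section

namespace Pool.Agent.H32.GS

open Complex Set Filter Topology MeasureTheory Metric
open Pool.Agent.H172R3.SM Pool.Agent.H24.GS
open scoped ContDiff

theorem int_fderiv_zero {W : ℂ → ℝ} (hW : ContDiff ℝ ∞ W) (hc : HasCompactSupport W) (v : ℂ) :
    ∫ z, fderiv ℝ W z v = 0 := by
  have hd : Continuous (fun z => fderiv ℝ W z v) :=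
    (hW.continuous_fderiv (by simp)).clm_apply continuous_const
  have h := integral_mul_fderiv_eq_neg_fderiv_mul_of_integrable (μ := (volume : Measure ℂ))
    (f := fun _ : ℂ => (1 : ℝ)) (g := W) (v := v) (by simp)
    (by simpa using hd.integrable_of_hasCompactSupport (hc.fderiv_apply (𝕜 := ℝ) v))
    (by simpa using hW.continuous.integrable_of_hasCompactSupport hc)
    (fun x _ => differentiableAt_const _) (fun x _ => hW.differentiable (by simp) x)
  simpa using h

theorem int_dx_dy_integrable {W : ℂ → ℝ} (hW : ContDiff ℝ ∞ W) (hc : HasCompactSupport W) (v : ℂ) :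
    Integrable (fun z => fderiv ℝ W z v) :=
  ((hW.continuous_fderiv (by simp)).clm_apply continuous_const).integrable_of_hasCompactSupport
    (hc.fderiv_apply (𝕜 := ℝ) v)

theorem fderiv_re_apply (z v : ℂ) : fderiv ℝ (fun z : ℂ => z.re) z v = v.re := by
  have : fderiv ℝ (fun z : ℂ => z.re) z = reCLM := reCLM.hasFDerivAt.fderiv
  rw [this]; rfl

theorem fderiv_im_apply (z v : ℂ) : fderiv ℝ (fun z : ℂ => z.im) z v = v.im := by
  have : fderiv ℝ (fun z : ℂ => z.im) z = imCLM := imCLM.hasFDerivAt.fderiv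
  rw [this]; rfl

/-- derivative of `χ(sz) (A x + B y)` -/
theorem fderiv_W {χ A B : ℂ → ℝ} (hχ : ContDiff ℝ ∞ χ) (hA : ContDiff ℝ ∞ A)
    (hB : ContDiff ℝ ∞ B) (s : ℝ) (z v : ℂ) :
    fderiv ℝ (fun z => χ (s • z) * (A z * z.re + B z * z.im)) z v =
      χ (s • z) * (fderiv ℝ A z v * z.re + A z * v.re + fderiv ℝ B z v * z.im + B z * v.im) +
      s * fderiv ℝ χ (s • z) v * (A z * z.re + B z * z.im) := by
  have h1 : HasFDerivAt (fun z : ℂ => s • z) (s • ContinuousLinearMap.id ℝ ℂ) z :=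
    (hasFDerivAt_id z).const_smul s
  have h2 : HasFDerivAt χ (fderiv ℝ χ (s • z)) (s • z) :=
    (hχ.differentiable (by simp) _).hasFDerivAt
  have h3 : HasFDerivAt (fun z => χ (s • z)) _ z := h2.comp z h1
  have hre : HasFDerivAt (fun z : ℂ => z.re) reCLM z := reCLM.hasFDerivAt
  have him : HasFDerivAt (fun z : ℂ => z.im) imCLM z := imCLM.hasFDerivAt
  have hA' := (hA.differentiable (by simp) z).hasFDerivAt
  have hB' := (hB.differentiable (by simp) z).hasFDerivAt
  have h4 : HasFDerivAt (fun z => χ (s • z) * (A z * z.re + B z * z.im)) _ z :=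
    h3.mul ((hA'.mul hre).add (hB'.mul him))
  rw [h4.fderiv]
  simp
  ring

theorem contDiff_W {χ A B : ℂ → ℝ} (hχ : ContDiff ℝ ∞ χ) (hA : ContDiff ℝ ∞ A)
    (hB : ContDiff ℝ ∞ B) (s : ℝ) :
    ContDiff ℝ ∞ (fun z => χ (s • z) * (A z * z.re + B z * z.im)) := by
  have h1 : ContDiff ℝ ∞ (fun z : ℂ => s • z) := contDiff_id.const_smul s
  have hre : ContDiff ℝ ∞ (fun z : ℂ => z.re) := reCLM.contDiff
  have him : ContDiff ℝ ∞ (fun z : ℂ => z.im) := imCLM.contDiff
  exact (hχ.comp h1).mul ((hA.mul hre).add (hB.mul him))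

theorem supp_W {χ A B : ℂ → ℝ} (hc : HasCompactSupport χ) {s : ℝ} (hs : s ≠ 0) :
    HasCompactSupport (fun z => χ (s • z) * (A z * z.re + B z * z.im)) :=
  (hc.comp_smul hs).mul_right

/-- the total derivative -/
theorem key {χ T11 T12 T22 : ℂ → ℝ} (hχ : ContDiff ℝ ∞ χ) (h11 : ContDiff ℝ ∞ T11)
    (h12 : ContDiff ℝ ∞ T12) (h22 : ContDiff ℝ ∞ T22)
    (e1 : ∀ z, dx T11 z + dy T12 z = 0) (e2 : ∀ z, dx T12 z + dy T22 z = 0) (s : ℝ) (z : ℂ) :
    fderiv ℝ (fun z => χ (s • z) * (T11 z * z.re + T12 z * z.im)) z 1 +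
      fderiv ℝ (fun z => χ (s • z) * (T12 z * z.re + T22 z * z.im)) z I =
    χ (s • z) * (T11 z + T22 z) +
      fderiv ℝ χ (s • z) 1 * (T11 z * (s • z).re + T12 z * (s • z).im) +
      fderiv ℝ χ (s • z) I * (T12 z * (s • z).re + T22 z * (s • z).im) := by
  rw [fderiv_W hχ h11 h12, fderiv_W hχ h12 h22]
  have e1' := e1 z
  have e2' := e2 z
  unfold dx dy at e1' e2'
  simp only [one_re, one_im, I_re, I_im, real_smul, mul_re, mul_im, ofReal_re, ofReal_im]
  linear_combination (χ (s * z) * z.re) * e1' + (χ (s * z) * z.im) * e2'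

/-- a continuous function with compact support is bounded -/
theorem bdd {G : ℂ → ℝ} (hG : Continuous G) (hc : HasCompactSupport G) :
    ∃ C : ℝ, 0 ≤ C ∧ ∀ z, |G z| ≤ C := by
  obtain ⟨C, hC⟩ := hc.exists_bound_of_continuous hG
  exact ⟨C, (norm_nonneg _).trans (hC 0), hC⟩

theorem t_VIR : S_VIR := by
  intro T11 T12 T22 h11 h12 h22 i11 i12 i22 e1 e2
  let b : ContDiffBump (0 : ℂ) := ⟨1, 2, one_pos, one_lt_two⟩
  let χ : ℂ → ℝ := fun z => b z
  have hχ : ContDiff ℝ ∞ χ := b.contDiff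
  have hcχ : HasCompactSupport χ := b.hasCompactSupport
  have hχ0 : χ 0 = 1 := b.one_of_mem_closedBall (by simp [b])
  have dc : ∀ v : ℂ, Continuous (fun z => fderiv ℝ χ z v) := fun v =>
    (hχ.continuous_fderiv (by simp)).clm_apply continuous_const
  have ds : ∀ v : ℂ, HasCompactSupport (fun z => fderiv ℝ χ z v) := fun v =>
    hcχ.fderiv_apply (𝕜 := ℝ) v
  obtain ⟨C0, hC0, B0⟩ := bdd hχ.continuous hcχ
  obtain ⟨C1, hC1, B1⟩ := bdd ((dc 1).mul continuous_re) (ds 1).mul_right
  obtain ⟨C2, hC2, B2⟩ := bdd ((dc 1).mul continuous_im) (ds 1).mul_right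
  obtain ⟨C3, hC3, B3⟩ := bdd ((dc I).mul continuous_re) (ds I).mul_right
  obtain ⟨C4, hC4, B4⟩ := bdd ((dc I).mul continuous_im) (ds I).mul_right
  let s : ℕ → ℝ := fun n => ((n : ℝ) + 1)⁻¹
  have hs : ∀ n, s n ≠ 0 := fun n => by simp only [s]; positivity
  have hs0 : Tendsto s atTop (𝓝 0) := by
    have := tendsto_one_div_add_atTop_nhds_zero_nat (𝕜 := ℝ)
    simpa [s, one_div] using this
  let F : ℕ → ℂ → ℝ := fun n z => χ (s n • z) * (T11 z + T22 z) +
      fderiv ℝ χ (s n • z) 1 * (T11 z * (s n • z).re + T12 z * (s n • z).im) +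
      fderiv ℝ χ (s n • z) I * (T12 z * (s n • z).re + T22 z * (s n • z).im)
  have hF0 : ∀ n, ∫ z, F n z = 0 := by
    intro n
    have hF : F n = fun z => fderiv ℝ (fun z => χ (s n • z) * (T11 z * z.re + T12 z * z.im)) z 1 +
      fderiv ℝ (fun z => χ (s n • z) * (T12 z * z.re + T22 z * z.im)) z I := by
      funext z
      exact (key hχ h11 h12 h22 e1 e2 (s n) z).symm
    rw [hF, integral_add
      (int_dx_dy_integrable (contDiff_W hχ h11 h12 (s n)) (supp_W hcχ (hs n)) 1)
      (int_dx_dy_integrable (contDiff_W hχ h12 h22 (s n)) (supp_W hcχ (hs n)) I),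
      int_fderiv_zero (contDiff_W hχ h11 h12 (s n)) (supp_W hcχ (hs n)) 1,
      int_fderiv_zero (contDiff_W hχ h12 h22 (s n)) (supp_W hcχ (hs n)) I, add_zero]
  have hFc : ∀ n, Continuous (F n) := by
    intro n
    have hsm : Continuous (fun z : ℂ => s n • z) := continuous_id.const_smul (s n)
    have c1 := hχ.continuous.comp hsm
    have c2 := (dc 1).comp hsm
    have c3 := (dc I).comp hsm
    have c4 := continuous_re.comp hsm
    have c5 := continuous_im.comp hsm
    have a1 := h11.continuous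
    have a2 := h12.continuous
    have a3 := h22.continuous
    exact ((c1.mul (a1.add a3)).add (c2.mul ((a1.mul c4).add (a2.mul c5)))).add
      (c3.mul ((a2.mul c4).add (a3.mul c5)))
  have hbound : ∀ n z, ‖F n z‖ ≤ (C0 + C1 + C2 + C3 + C4) * (|T11 z| + |T12 z| + |T22 z|) := by
    intro n z
    have b0 := B0 (s n • z)
    have b1 := B1 (s n • z)
    have b2 := B2 (s n • z)
    have b3 := B3 (s n • z)
    have b4 := B4 (s n • z)
    simp only [Pi.mul_apply] at b1 b2 b3 b4
    have hFz : F n z = χ (s n • z) * T11 z + χ (s n • z) * T22 z +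
        (fderiv ℝ χ (s n • z) 1 * (s n • z).re) * T11 z +
        (fderiv ℝ χ (s n • z) 1 * (s n • z).im) * T12 z +
        (fderiv ℝ χ (s n • z) I * (s n • z).re) * T12 z +
        (fderiv ℝ χ (s n • z) I * (s n • z).im) * T22 z := by
      simp only [F]; ring
    have m : ∀ a c T : ℝ, |a| ≤ c → |a * T| ≤ c * |T| := fun a c T h => by
      rw [abs_mul]; exact mul_le_mul_of_nonneg_right h (abs_nonneg _)
    have m1 := m _ _ (T11 z) b0
    have m2 := m _ _ (T22 z) b0
    have m3 := m _ _ (T11 z) b1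
    have m4 := m _ _ (T12 z) b2
    have m5 := m _ _ (T12 z) b3
    have m6 := m _ _ (T22 z) b4
    rw [hFz, Real.norm_eq_abs]
    have t := abs_add_le (χ (s n • z) * T11 z + χ (s n • z) * T22 z +
        (fderiv ℝ χ (s n • z) 1 * (s n • z).re) * T11 z +
        (fderiv ℝ χ (s n • z) 1 * (s n • z).im) * T12 z +
        (fderiv ℝ χ (s n • z) I * (s n • z).re) * T12 z)
        ((fderiv ℝ χ (s n • z) I * (s n • z).im) * T22 z)
    have t2 := abs_add_le (χ (s n • z) * T11 z + χ (s n • z) * T22 z +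
        (fderiv ℝ χ (s n • z) 1 * (s n • z).re) * T11 z +
        (fderiv ℝ χ (s n • z) 1 * (s n • z).im) * T12 z)
        ((fderiv ℝ χ (s n • z) I * (s n • z).re) * T12 z)
    have t3 := abs_add_le (χ (s n • z) * T11 z + χ (s n • z) * T22 z +
        (fderiv ℝ χ (s n • z) 1 * (s n • z).re) * T11 z)
        ((fderiv ℝ χ (s n • z) 1 * (s n • z).im) * T12 z)
    have t4 := abs_add_le (χ (s n • z) * T11 z + χ (s n • z) * T22 z)
        ((fderiv ℝ χ (s n • z) 1 * (s n • z).re) * T11 z)
    have t5 := abs_add_le (χ (s n • z) * T11 z) (χ (s n • z) * T22 z)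
    have p1 := mul_nonneg hC1 (abs_nonneg (T12 z))
    have p2 := mul_nonneg hC1 (abs_nonneg (T22 z))
    have p3 := mul_nonneg hC2 (abs_nonneg (T11 z))
    have p4 := mul_nonneg hC2 (abs_nonneg (T22 z))
    have p5 := mul_nonneg hC3 (abs_nonneg (T11 z))
    have p6 := mul_nonneg hC3 (abs_nonneg (T22 z))
    have p7 := mul_nonneg hC4 (abs_nonneg (T11 z))
    have p8 := mul_nonneg hC4 (abs_nonneg (T12 z))
    have p9 := mul_nonneg hC0 (abs_nonneg (T12 z))
    linarith
  have hlim : ∀ z, Tendsto (fun n => F n z) atTop (𝓝 (T11 z + T22 z)) := by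
    intro z
    have hz : Tendsto (fun n => s n • z) atTop (𝓝 (0 : ℂ)) := by
      simpa using hs0.smul_const z
    have l1 : Tendsto (fun n => χ (s n • z)) atTop (𝓝 1) := by
      have := (hχ.continuous.tendsto 0).comp hz
      rwa [hχ0] at this
    have l2 := ((dc 1).tendsto 0).comp hz
    have l3 := ((dc I).tendsto 0).comp hz
    have l4 : Tendsto (fun n => (s n • z).re) atTop (𝓝 0) := by
      have := (continuous_re.tendsto 0).comp hz
      rwa [zero_re] at this
    have l5 : Tendsto (fun n => (s n • z).im) atTop (𝓝 0) := by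
      have := (continuous_im.tendsto 0).comp hz
      rwa [zero_im] at this
    have := ((l1.mul_const (T11 z + T22 z)).add
      (l2.mul ((l4.const_mul (T11 z)).add (l5.const_mul (T12 z))))).add
      (l3.mul ((l4.const_mul (T12 z)).add (l5.const_mul (T22 z))))
    simpa [F] using this
  have hdom := tendsto_integral_of_dominated_convergence (μ := (volume : Measure ℂ))
    (F := F) (f := fun z => T11 z + T22 z)
    (fun z => (C0 + C1 + C2 + C3 + C4) * (|T11 z| + |T12 z| + |T22 z|))
    (fun n => (hFc n).aestronglyMeasurable)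
    (((i11.abs.add i12.abs).add i22.abs).const_mul _)
    (fun n => Eventually.of_forall (hbound n))
    (Eventually.of_forall hlim)
  simp only [hF0] at hdom
  exact (tendsto_nhds_unique tendsto_const_nhds hdom).symm

end Pool.Agent.H32.GS
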